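import Pool.Agent.Helper49.TP.StG

set_option autoImplicit false

namespace Pool.Agent.Helper95.TP

open Finset Pool.Agent.Helper49.TP Pool.Agent.Helper93.IA

/-- the function of two variables for the edge set `E`, `T` = sum of the weights at a pair -/
private noncomputable def FE {n : ℕ} (η q : ℝ) (E : Finset (Fin n × Fin n))
    (T : Fin n → Fin n → ℝ) (r c : Fin n) : ℝ :=
  (q * (if (r, c) ∈ E then 1 else 0) - T r c / n) / (1 - η)

private lemma fe_main {n k : ℕ} (hn : 0 < n) (δ q : ℝ) (hδ : 0 < δ) (hδ8 : δ ≤ 1 / 8)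
    (hq1 : 1 ≤ q) (hq2 : q ≤ 4 / (3 + 8 * δ))
    (hqk : q * ((n : ℝ) - k) = n)
    (E : Finset (Fin n × Fin n)) (T : Fin n → Fin n → ℝ)
    (hT0 : ∀ r c, 0 ≤ T r c) (hTn : ∀ r c, T r c ≤ δ * n) (hTE : ∀ r c, (r, c) ∉ E → T r c = 0)
    (hT1 : ∀ r, ∑ c, T r c = 3 / 8 * δ * (n : ℝ) ^ 2)
    (hT2 : ∀ c, ∑ r, T r c = 3 / 8 * δ * (n : ℝ) ^ 2)
    (hE : ∀ i, m1 E univ i = k ∧ m2 E univ i = k) :
    (∀ r c, 0 ≤ FE (3 / 8 * δ) q E T r c ∧ FE (3 / 8 * δ) q E T r c ≤ 4 / (3 + 4 * δ)) ∧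
      Ls (FE (3 / 8 * δ) q E T) := by
  have hn' : (0 : ℝ) < n := by exact_mod_cast hn
  have h1 : 0 < 1 - 3 / 8 * δ := by linarith
  have hTn' : ∀ r c, T r c / n ≤ δ := by
    intro r c
    rw [div_le_iff₀ hn']
    exact hTn r c
  have hT0' : ∀ r c, 0 ≤ T r c / n := fun r c => div_nonneg (hT0 r c) hn'.le
  refine ⟨?_, ?_, ?_⟩
  · intro r c
    unfold FE
    constructor
    · apply div_nonneg _ h1.le
      by_cases h : (r, c) ∈ E
      · rw [if_pos h]
        have := hTn' r c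
        linarith
      · rw [if_neg h, hTE r c h]
        simp
    · rw [div_le_iff₀ h1]
      have h2 : q * (if (r, c) ∈ E then 1 else 0) - T r c / n ≤ q := by
        have := hT0' r c
        split_ifs
        · linarith
        · linarith
      refine h2.trans (hq2.trans ?_)
      rw [div_le_iff₀ (by positivity), mul_assoc, div_mul_eq_mul_div, le_div_iff₀ (by positivity)]
      nlinarith
  · intro r
    unfold FE
    rw [← Finset.sum_div, div_eq_iff h1.ne', Finset.sum_sub_distrib, ← Finset.mul_sum,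
      ← Pool.Agent.Helper38.IA.d1_eq_sum, ← Finset.sum_div, hT1]
    have h5 := Pool.Agent.Helper38.IA.d1_add_m1 E r
    rw [(hE r).1, Fintype.card_fin] at h5
    have h6 : (d1 E r : ℝ) = n - k := by
      have h7 : ((d1 E r + k : ℕ) : ℝ) = n := by rw [h5]
      push_cast at h7
      linarith
    rw [h6, hqk]
    field_simp
  · intro c
    unfold FE
    rw [← Finset.sum_div, div_eq_iff h1.ne', Finset.sum_sub_distrib, ← Finset.mul_sum,
      ← Pool.Agent.Helper38.IA.d2_eq_sum, ← Finset.sum_div, hT2]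
    have h5 := Pool.Agent.Helper38.IA.d2_add_m2 E c
    rw [(hE c).2, Fintype.card_fin] at h5
    have h6 : (d2 E c : ℝ) = n - k := by
      have h7 : ((d2 E c + k : ℕ) : ℝ) = n := by rw [h5]
      push_cast at h7
      linarith
    rw [h6, hqk]
    field_simp

private lemma sum_fin_le {n : ℕ} (δ : ℝ) (f : Fin n → ℝ) (h : ∀ i, f i ≤ δ) :
    ∑ i, f i ≤ δ * n := by
  calc ∑ i, f i ≤ ∑ _i : Fin n, δ := Finset.sum_le_sum fun i _ => h i
    _ = δ * n := by simp [mul_comm]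

private lemma edge_sum {n : ℕ} (hn : (0 : ℝ) < n) (η q e x T : ℝ) (hq : 1 ≤ q)
    (h1 : 0 < 1 - η) (hx : x = n * (1 + 1 * ((q * e - T / n) / (1 - η) - 1))) :
    ((1 - η) * x + T) / q = n * e := by
  rw [hx, div_eq_iff (by linarith)]
  field_simp
  ring

private lemma num_ok (δ : ℝ) (hδ : 0 < δ) (hδ8 : δ ≤ 1 / 8) :
    (2 / δ ^ 2 + 3) * (4 / (3 + 4 * δ)) ^ 2 / (10 / δ ^ 3) + δ +
      4 / (3 + 4 * δ) / (δ * (2 / δ ^ 2)) ≤ 4 - 3 * (4 / (3 + 4 * δ)) := by
  have hF : 4 / (3 + 4 * δ) ≤ 4 / 3 :=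
    div_le_div_of_nonneg_left (by norm_num) (by norm_num) (by linarith)
  have hF0 : 0 < 4 / (3 + 4 * δ) := by positivity
  set F := 4 / (3 + 4 * δ) with hFd
  have e1 : (2 / δ ^ 2 + 3) * F ^ 2 / (10 / δ ^ 3) = (2 * δ + 3 * δ ^ 3) * F ^ 2 / 10 := by
    field_simp
  have e2 : F / (δ * (2 / δ ^ 2)) = F * δ / 2 := by
    field_simp
  have e3 : 4 - 3 * F = 16 * δ / (3 + 4 * δ) := by
    rw [hFd]; field_simp; ring
  have h3 : 32 / 7 * δ ≤ 16 * δ / (3 + 4 * δ) := by
    rw [le_div_iff₀ (by positivity)]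
    nlinarith
  have hF2 : F ^ 2 ≤ 16 / 9 := by nlinarith
  have h4 : (2 * δ + 3 * δ ^ 3) * F ^ 2 / 10 ≤ δ := by
    have h5 : δ ^ 3 ≤ δ := by nlinarith [mul_pos hδ hδ]
    have h6 : (2 * δ + 3 * δ ^ 3) * F ^ 2 ≤ (5 * δ) * (16 / 9) := by
      apply mul_le_mul
      · linarith
      · exact hF2
      · positivity
      · positivity
    linarith
  have h7 : F * δ / 2 ≤ 2 / 3 * δ := by nlinarith
  rw [e1, e2, e3]
  linarith

theorem hFG2 : StFG2 := by
  intro hF hT δ n k A B C hδ hδ8 hn hk hm hTr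
  have hn' : (0 : ℝ) < n := by exact_mod_cast hn
  have hk0 : (0 : ℝ) ≤ k := Nat.cast_nonneg k
  have hk4 : (k : ℝ) ≤ n / 4 := by nlinarith
  obtain ⟨y, yI, yT, yN, t1, t2, t3⟩ := hT δ n A B C hn hδ (fun i => by
    obtain ⟨e1, e2, e3, e4, e5, e6⟩ := hm i
    rw [e1, e2, e3, e4, e5, e6]
    exact ⟨hk4, hk4, hk4, hk4, hk4, hk4⟩) hTr
  have y0 : ∀ r c s, 0 ≤ y r c s := by
    intro r c s
    by_cases h : Tri A B C r c s
    · exact le_trans (by positivity) (yT r c s h).1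
    · rw [yN r c s h]
  have y1 : ∀ r c s, y r c s ≤ δ := by
    intro r c s
    by_cases h : Tri A B C r c s
    · exact (yT r c s h).2
    · rw [yN r c s h]; exact hδ.le
  have hnk : (3 / 4 + 2 * δ) * (n : ℝ) ≤ n - k := by linarith
  have hnk0 : (0 : ℝ) < (n : ℝ) - k := lt_of_lt_of_le (by positivity) hnk
  set q : ℝ := n / (n - k) with hqd
  have hq1 : 1 ≤ q := by rw [hqd, le_div_iff₀ hnk0]; linarith
  have hq2 : q ≤ 4 / (3 + 8 * δ) := by
    rw [hqd, div_le_div_iff₀ hnk0 (by positivity)]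
    linarith
  have hqk : q * ((n : ℝ) - k) = n := by rw [hqd]; field_simp
  have hq0 : 0 < q := by linarith
  have h1 : 0 < 1 - 3 / 8 * δ := by linarith
  set TA : Fin n → Fin n → ℝ := fun r c => ∑ s, y r c s with hTA
  set TB : Fin n → Fin n → ℝ := fun c s => ∑ r, y r c s with hTB
  set TC : Fin n → Fin n → ℝ := fun s r => ∑ c, y r c s with hTC
  have fA := fe_main (k := k) hn δ q hδ hδ8 hq1 hq2 hqk A TA
    (fun r c => Finset.sum_nonneg fun s _ => y0 r c s)
    (fun r c => sum_fin_le δ _ fun s => y1 r c s)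
    (fun r c h => Finset.sum_eq_zero fun s _ => yN r c s fun h' => h h'.1)
    (fun r => t1 r) (fun c => t2 c) (fun i => ⟨(hm i).1, (hm i).2.1⟩)
  have fB := fe_main (k := k) hn δ q hδ hδ8 hq1 hq2 hqk B TB
    (fun c s => Finset.sum_nonneg fun r _ => y0 r c s)
    (fun c s => sum_fin_le δ _ fun r => y1 r c s)
    (fun c s h => Finset.sum_eq_zero fun r _ => yN r c s fun h' => h h'.2.1)
    (fun c => by rw [← t2 c]; exact Finset.sum_comm)
    (fun s => by rw [← t3 s]; exact Finset.sum_comm)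
    (fun i => ⟨(hm i).2.2.1, (hm i).2.2.2.1⟩)
  have fC := fe_main (k := k) hn δ q hδ hδ8 hq1 hq2 hqk C TC
    (fun s r => Finset.sum_nonneg fun c _ => y0 r c s)
    (fun s r => sum_fin_le δ _ fun c => y1 r c s)
    (fun s r h => Finset.sum_eq_zero fun c _ => yN r c s fun h' => h h'.2.2)
    (fun s => t3 s)
    (fun r => by rw [← t1 r]; exact Finset.sum_comm)
    (fun i => ⟨(hm i).2.2.2.2.1, (hm i).2.2.2.2.2⟩)
  have hPr : ∀ h, AuG A B C h → Pr2 (FE (3 / 8 * δ) q A TA) (FE (3 / 8 * δ) q B TB)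
      (FE (3 / 8 * δ) q C TC) h := by
    intro h hh
    have hI := yI h hh
    refine ⟨?_, ?_, ?_⟩
    · intro r c
      have e1 : TA (h.1 r) (h.2.1 c) = TA r c := by
        simp only [hTA]
        rw [← Equiv.sum_comp h.2.2]
        exact Finset.sum_congr rfl fun s _ => hI r c s
      unfold FE
      rw [e1, if_congr (hh.1 r c) rfl rfl]
    · intro c s
      have e1 : TB (h.2.1 c) (h.2.2 s) = TB c s := by
        simp only [hTB]
        rw [← Equiv.sum_comp h.1]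
        exact Finset.sum_congr rfl fun r _ => hI r c s
      unfold FE
      rw [e1, if_congr (hh.2.1 c s) rfl rfl]
    · intro s r
      have e1 : TC (h.2.2 s) (h.1 r) = TC s r := by
        simp only [hTC]
        rw [← Equiv.sum_comp h.2.1]
        exact Finset.sum_congr rfl fun c _ => hI r c s
      unfold FE
      rw [e1, if_congr (hh.2.2 s r) rfl rfl]
  have hTr' : Tr2 (Pr2 (FE (3 / 8 * δ) q A TA) (FE (3 / 8 * δ) q B TB)
      (FE (3 / 8 * δ) q C TC)) := by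
    obtain ⟨a1, a2⟩ := hTr
    refine ⟨?_, ?_⟩
    · intro r r'
      obtain ⟨h, h2, h3⟩ := a1 r r'
      exact ⟨h, hPr h h2, h3⟩
    · intro r r'
      obtain ⟨h, h2, h3⟩ := a2 r r'
      exact ⟨h, hPr h h2, h3⟩
  have hd3 : 0 < δ ^ 3 := by positivity
  have hd3' : δ ^ 3 ≤ 1 := pow_le_one₀ hδ.le (by linarith)
  have hΛ : (1 : ℝ) ≤ 10 / δ ^ 3 := by
    rw [le_div_iff₀ hd3]; linarith
  obtain ⟨x, hx0, hxA, hxB, hxC⟩ := hF n (4 / (3 + 4 * δ)) (10 / δ ^ 3) δ (2 / δ ^ 2) _ _ _ hn hΛ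
    hδ (by linarith) (by positivity) (num_ok δ hδ hδ8) fA.1 fB.1 fC.1 fA.2 fB.2 fC.2 hTr'
  set X : Fin n → Fin n → Fin n → ℝ :=
    fun r c s => ((1 - 3 / 8 * δ) * x r c s + y r c s) / q with hX
  have sA : ∀ r c, ∑ s, X r c s = n * (if (r, c) ∈ A then 1 else 0) := by
    intro r c
    simp only [hX]
    rw [← Finset.sum_div, Finset.sum_add_distrib, ← Finset.mul_sum]
    exact edge_sum hn' (3 / 8 * δ) q _ _ _ hq1 h1 (hxA r c)
  have sB : ∀ c s, ∑ r, X r c s = n * (if (c, s) ∈ B then 1 else 0) := by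
    intro c s
    simp only [hX]
    rw [← Finset.sum_div, Finset.sum_add_distrib, ← Finset.mul_sum]
    exact edge_sum hn' (3 / 8 * δ) q _ _ _ hq1 h1 (hxB c s)
  have sC : ∀ s r, ∑ c, X r c s = n * (if (s, r) ∈ C then 1 else 0) := by
    intro s r
    simp only [hX]
    rw [← Finset.sum_div, Finset.sum_add_distrib, ← Finset.mul_sum]
    exact edge_sum hn' (3 / 8 * δ) q _ _ _ hq1 h1 (hxC s r)
  have X0 : ∀ r c s, 0 ≤ X r c s := by
    intro r c s
    exact div_nonneg (add_nonneg (mul_nonneg h1.le (hx0 r c s).1) (y0 r c s)) hq0.le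
  refine ⟨X, ⟨?_, ?_, ?_⟩, ?_, ?_, ?_⟩
  · intro r c s
    refine ⟨X0 r c s, ?_⟩
    have e1 : (1 - 3 / 8 * δ) * x r c s ≤ 10 / δ ^ 3 := by
      have := (hx0 r c s).2
      have h0 := (hx0 r c s).1
      nlinarith
    have e2 : y r c s ≤ 1 := (y1 r c s).trans (by linarith)
    have e3 : 0 ≤ (1 - 3 / 8 * δ) * x r c s := mul_nonneg h1.le (hx0 r c s).1
    calc X r c s ≤ (1 - 3 / 8 * δ) * x r c s + y r c s :=
          div_le_self (add_nonneg e3 (y0 r c s)) hq1
      _ ≤ 10 / δ ^ 3 + 1 := add_le_add e1 e2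
  · intro r c s hne
    refine ⟨?_, ?_, ?_⟩
    · by_contra h
      have h2 := sA r c
      rw [if_neg h, mul_zero, Finset.sum_eq_zero_iff_of_nonneg fun s _ => X0 r c s] at h2
      exact hne (h2 s (mem_univ _))
    · by_contra h
      have h2 := sB c s
      rw [if_neg h, mul_zero, Finset.sum_eq_zero_iff_of_nonneg fun r _ => X0 r c s] at h2
      exact hne (h2 r (mem_univ _))
    · by_contra h
      have h2 := sC s r
      rw [if_neg h, mul_zero, Finset.sum_eq_zero_iff_of_nonneg fun c _ => X0 r c s] at h2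
      exact hne (h2 c (mem_univ _))
  · intro r c s ht
    have h2 := (yT r c s ht).1
    have e3 : 0 ≤ (1 - 3 / 8 * δ) * x r c s := mul_nonneg h1.le (hx0 r c s).1
    simp only [hX]
    rw [le_div_iff₀ hq0]
    have h3 : q ≤ 4 / 3 := hq2.trans (div_le_div_of_nonneg_left (by norm_num) (by norm_num)
      (by linarith))
    nlinarith
  · intro a b h
    rw [sA, if_pos h, mul_one]
  · intro a b h
    rw [sB, if_pos h, mul_one]
  · intro a b h
    rw [sC, if_pos h, mul_one]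

end Pool.Agent.Helper95.TP
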